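import Pool.Agent.MP_b9875a_co.H99.Spec2

set_option autoImplicit false

namespace Pool.Agent.MP_b9875a_co.H3.EL

open Finset Pool.Agent.MP_b9875a_co.H99.LN

variable {N α : Type} [DecidableEq N] (tl hd : α → N) (c : N → ℕ)

lemma ex_anti (D : Finset α) (v : N) {X Y : Finset N} (h : X ⊆ Y) :
    ex tl hd D v Y ≤ ex tl hd D v X :=
  card_le_card fun _ ha => mem_filter.2 ⟨(mem_filter.1 ha).1, (mem_filter.1 ha).2.1,
    fun q => (mem_filter.1 ha).2.2 (h q)⟩

lemma ex_mod (D : Finset α) (v : N) (X Y : Finset N) :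
    ex tl hd D v (X ∩ Y) + ex tl hd D v (X ∪ Y) = ex tl hd D v X + ex tl hd D v Y := by
  unfold ex
  simp only [card_filter, ← sum_add_distrib]
  refine sum_congr rfl fun a _ => ?_
  by_cases h1 : tl a = v <;> by_cases h2 : hd a ∈ X <;> by_cases h3 : hd a ∈ Y <;>
    simp [h1, h2, h3]

lemma mval_eq [Fintype N] (D : Finset α) (X : Finset N) :
    mval c tl hd D X = ∑ v, if v ∈ X then min (c v) (ex tl hd D v X) else 0 := by
  rw [mval, ← sum_filter]
  simp

/-- submodularity, strict when the intersection is saturated at a vertex where `X`, `Y` are not -/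
lemma submod [Fintype N] (D : Finset α) (X Y : Finset N) (x : N) (hX : x ∈ X) (hY : x ∈ Y)
    (h1 : ex tl hd D x X ≤ c x) (h2 : ex tl hd D x Y ≤ c x) :
    mval c tl hd D (X ∩ Y) + mval c tl hd D (X ∪ Y) +
      (if ex tl hd D x (X ∩ Y) ≤ c x then 0 else 1) ≤ mval c tl hd D X + mval c tl hd D Y := by
  have e : (if ex tl hd D x (X ∩ Y) ≤ c x then 0 else 1) =
      ∑ v, if v = x then (if ex tl hd D x (X ∩ Y) ≤ c x then 0 else 1) else 0 := by simp
  rw [e]
  simp only [mval_eq, ← sum_add_distrib]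
  refine sum_le_sum fun v _ => ?_
  have a1 := ex_mod tl hd D v X Y
  have a2 := ex_anti tl hd D v (subset_union_left (s₁ := X) (s₂ := Y))
  have a3 := ex_anti tl hd D v (subset_union_right (s₁ := X) (s₂ := Y))
  by_cases hv : v = x
  · subst hv
    simp only [mem_inter, mem_union, hX, hY, and_self, or_self, if_true]
    split_ifs <;> omega
  · by_cases b1 : v ∈ X <;> by_cases b2 : v ∈ Y <;>
      simp only [mem_inter, mem_union, b1, b2, hv, and_self, or_self, if_true, if_false, and_false,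
        false_and, or_false, false_or] <;> omega

lemma mval_erase [DecidableEq α] (D : Finset α) (X : Finset N) (e : α) :
    mval c tl hd D X ≤ mval c tl hd (D.erase e) X +
      if tl e ∈ X ∧ hd e ∉ X ∧ ex tl hd D (tl e) X ≤ c (tl e) then 1 else 0 := by
  have key : ∀ v, ex tl hd D v X ≤ ex tl hd (D.erase e) v X + 1 ∧
      (¬(tl e = v ∧ hd e ∉ X) → ex tl hd (D.erase e) v X = ex tl hd D v X) := by
    intro v
    unfold ex
    rw [filter_erase]
    refine ⟨?_, fun h => ?_⟩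
    · have := pred_card_le_card_erase (s := D.filter fun a => tl a = v ∧ hd a ∉ X) (a := e)
      omega
    · exact congrArg card (erase_eq_of_notMem fun q => h (mem_filter.1 q).2)
  by_cases h : tl e ∈ X
  · have e1 : ∀ n : ℕ, n = ∑ v ∈ X, if v = tl e then n else 0 := fun n => by simp [h]
    rw [e1 (ite _ 1 0), mval, mval, ← sum_add_distrib]
    refine sum_le_sum fun v _ => ?_
    obtain ⟨k1, k2⟩ := key v
    by_cases hv : v = tl e
    · subst hv
      by_cases h2 : hd e ∈ X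
      · rw [k2 fun q => q.2 h2]; omega
      · simp only [h, h2, not_false_eq_true, true_and, if_true]
        split_ifs <;> omega
    · rw [k2 fun q => hv q.1.symm]; omega
  · refine le_trans (sum_le_sum fun v hv => ?_) (Nat.le_add_right _ _)
    rw [(key v).2 fun q => h (q.1 ▸ hv)]

theorem el : ELStmt := by
  intro N α _ _ _ tl hd D c Lg p U0 o hU hL hp hpa hr h0
  suffices H : ∀ n (U : Finset N) (F : Finset α), (univ \ U).card = n → U0 ⊆ U → F ⊆ D →
      (∀ a ∈ F, tl a ∈ U) → (∀ v, cnt F tl v ≤ 1) →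
      (∀ u ∈ U, ∃ y ∈ U0, NR tl hd (fun a => a ∈ F) u y) →
      (∀ X, Lg X → p X ≤ mval c tl hd (D \ F) X) →
      ∃ F, F ⊆ D ∧ (∃ y ∈ U0, NR tl hd (fun a => a ∈ F) o y) ∧ (∀ v, cnt F tl v ≤ 1) ∧
        ∀ X, Lg X → p X ≤ mval c tl hd (D \ F) X by
    refine H _ U0 ∅ rfl Subset.rfl (empty_subset _) (by simp) (by simp [cnt])
      (fun u hu => ⟨u, hu, .refl⟩) fun X hX => ?_
    rw [sdiff_empty]
    exact le_trans (Nat.le_add_right _ _) (h0 X hX)
  intro n
  induction n using Nat.strong_induction_on with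
  | _ n ih =>
  intro U F hn h1 h2 h3 h4 h5 h6
  by_cases ho : o ∈ U
  · exact ⟨F, h2, h5 o ho, h4, h6⟩
  classical
  have hex : ∀ x, x ∉ U → ∀ Y, ex tl hd (D \ F) x Y = ex tl hd D x Y := by
    intro x hx Y
    unfold ex
    congr 1
    ext a
    simp only [mem_filter, mem_sdiff]
    exact ⟨fun h => ⟨h.1.1, h.2⟩, fun h => ⟨⟨h.1, fun q => hx (h.2.1 ▸ h3 a q)⟩, h.2⟩⟩
  have hz : ∀ (A : Finset α) v, ex tl hd A v univ = 0 := fun A v => by simp [ex]
  have hcu : mval c tl hd (D \ F) univ ≤ p univ := by simp [mval, hz]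
  -- the least sensitive critical set
  have least : ∀ x, x ∉ U → (1 ≤ c x ∨ x = o) → ∃ Y, Lg Y ∧ mval c tl hd (D \ F) Y ≤ p Y ∧
      x ∈ Y ∧ ex tl hd D x Y ≤ c x ∧ ∀ X, Lg X → mval c tl hd (D \ F) X ≤ p X → x ∈ X →
        ex tl hd D x X ≤ c x → Y ⊆ X := by
    intro x hx hc
    obtain ⟨Y, hY, hm⟩ := exists_min_image (univ.filter fun Y : Finset N => Lg Y ∧
      mval c tl hd (D \ F) Y ≤ p Y ∧ x ∈ Y ∧ ex tl hd D x Y ≤ c x) card
      ⟨univ, mem_filter.2 ⟨mem_univ _, hU, hcu, mem_univ _, by simp [hz]⟩⟩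
    obtain ⟨y1, y2, y3, y4⟩ := (mem_filter.1 hY).2
    refine ⟨Y, y1, y2, y3, y4, fun X x1 x2 x3 x4 => ?_⟩
    have a1 := ex_mod tl hd D x Y X
    have a2 : Lg (Y ∩ X) := by
      by_contra q
      have := hr x hc _ (mem_inter.2 ⟨y3, x3⟩) q
      omega
    have a3 := submod tl hd c (D \ F) Y X x y3 x3 (by rwa [hex x hx]) (by rwa [hex x hx])
    rw [hex x hx] at a3
    have a4 := h6 _ a2
    have a5 := h6 _ (hL _ _ (subset_union_left (s₂ := X)) y1)
    have a6 := hp Y X
    have a7 := hm (Y ∩ X) (mem_filter.2 ⟨mem_univ _, a2, by omega, mem_inter.2 ⟨y3, x3⟩, by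
      by_contra q
      rw [if_neg q] at a3
      omega⟩)
    exact inter_eq_left.1 (eq_of_subset_of_card_le inter_subset_left a7)
  obtain ⟨x, hx, Y, hY, hlt⟩ : ∃ x, x ∉ U ∧ ∃ Y, (∀ X, Lg X → mval c tl hd (D \ F) X ≤ p X →
      x ∈ X → ex tl hd D x X ≤ c x → Y ⊆ X) ∧ ex tl hd D x Y < ex tl hd D x (Y \ U) := by
    by_cases hlg : Lg (univ \ U)
    · obtain ⟨X, hX, hm⟩ := exists_min_image (univ.filter fun X : Finset N => Lg X ∧
        mval c tl hd (D \ F) X ≤ p X ∧ Lg (X \ U)) card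
        ⟨univ, mem_filter.2 ⟨mem_univ _, hU, hcu, hlg⟩⟩
      obtain ⟨x1, x2, x3⟩ := (mem_filter.1 hX).2
      have a1 := h0 _ x3
      rw [if_pos (disjoint_of_subset_right h1 sdiff_disjoint)] at a1
      have a2 := hpa _ _ (sdiff_subset (s := X) (t := U))
      have a3 : ∑ v ∈ X \ U, min (c v) (ex tl hd D v X) ≤ mval c tl hd (D \ F) X := by
        rw [sum_congr rfl fun v hv => by rw [← hex v (mem_sdiff.1 hv).2 X]]
        exact sum_le_sum_of_subset sdiff_subset
      obtain ⟨x, hx, a4⟩ := exists_lt_of_sum_lt (show ∑ v ∈ X \ U, min (c v) (ex tl hd D v X) <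
        ∑ v ∈ X \ U, min (c v) (ex tl hd D v (X \ U)) by unfold mval at a1; omega)
      obtain ⟨b1, b2⟩ := mem_sdiff.1 hx
      obtain ⟨Y, y1, y2, y3, y4, y5⟩ := least x b2 (Or.inl (by omega))
      refine ⟨x, b2, Y, y5, ?_⟩
      by_cases q : Lg (Y \ U)
      · rw [eq_of_subset_of_card_le (y5 X x1 x2 b1 (by omega))
          (hm Y (mem_filter.2 ⟨mem_univ _, y1, y2, q⟩))]
        omega
      · have := hr x (Or.inl (by omega)) _ (mem_sdiff.2 ⟨y3, b2⟩) q
        omega
    · obtain ⟨Y, -, -, y3, y4, y5⟩ := least o ho (Or.inr rfl)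
      have := hr o (Or.inr rfl) _ (mem_sdiff.2 ⟨y3, ho⟩)
        fun q => hlg (hL _ _ (sdiff_subset_sdiff (subset_univ _) Subset.rfl) q)
      exact ⟨o, ho, Y, y5, by omega⟩
  obtain ⟨e, e1, e2⟩ := exists_mem_notMem_of_card_lt_card hlt
  obtain ⟨eD, et, eh⟩ := mem_filter.1 e1
  have eY : hd e ∈ Y := by
    by_contra q
    exact e2 (mem_filter.2 ⟨eD, et, q⟩)
  have eU : hd e ∈ U := by
    by_contra q
    exact eh (mem_sdiff.2 ⟨eY, q⟩)
  have mono : ∀ u y, NR tl hd (fun a => a ∈ F) u y → NR tl hd (fun a => a ∈ insert e F) u y :=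
    fun u y h => by
      induction h with
      | refl => exact .refl
      | tail _ q ih => exact ih.tail (q.imp fun _ r => ⟨mem_insert_of_mem r.1, r.2⟩)
  refine ih _ ?_ (insert x U) (insert e F) rfl (h1.trans (subset_insert _ _))
    (insert_subset eD h2) (fun a ha => ?_) (fun v => ?_) (fun u hu => ?_) fun X hX => ?_
  · rw [← hn, sdiff_insert]
    exact card_erase_lt_of_mem (mem_sdiff.2 ⟨mem_univ _, hx⟩)
  · rcases mem_insert.1 ha with rfl | ha
    · exact et ▸ mem_insert_self _ _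
    · exact mem_insert_of_mem (h3 a ha)
  · unfold cnt
    rw [filter_insert]
    split_ifs with q
    · have : F.filter (fun a => tl a = v) = ∅ := filter_eq_empty_iff.2 fun a ha h =>
        hx (by rw [← et, q, ← h]; exact h3 a ha)
      rw [this]
      simp
    · exact h4 v
  · rcases mem_insert.1 hu with rfl | hu
    · obtain ⟨y, y1, y2⟩ := h5 _ eU
      exact ⟨y, y1, .head ⟨e, mem_insert_self _ _, et, rfl⟩ (mono _ _ y2)⟩
    · obtain ⟨y, y1, y2⟩ := h5 u hu
      exact ⟨y, y1, mono _ _ y2⟩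
  · have a1 := mval_erase tl hd c (D \ F) X e
    have a2 := h6 X hX
    rw [sdiff_insert]
    split_ifs at a1 with q
    · by_contra r
      rw [et, hex x hx] at q
      exact q.2.1 (hY X hX (by omega) q.1 q.2.2 eY)
    · omega

end Pool.Agent.MP_b9875a_co.H3.EL
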