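import Pool.Agent.MP_b9875a_co.H99.Spec

set_option autoImplicit false

namespace Pool.Agent.MP_b9875a_co.H3

open Finset Pool.Agent.MP_b9875a_co.H99.PL

lemma suffix {V : Type} (v : V) : ∀ L : List V, v ∈ L → L.Nodup →
    ∃ L' : List V, L'.head? = some v ∧ L'.getLast? = L.getLast? ∧ L'.Nodup ∧
      ∀ e ∈ L'.zip L'.tail, e ∈ L.zip L.tail := by
  intro L
  induction L with
  | nil => intro h; simp at h
  | cons a L ih =>
    intro hv hnd
    by_cases h : v = a
    · subst h
      exact ⟨v :: L, rfl, rfl, hnd, fun e he => he⟩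
    · have hvL : v ∈ L := (List.mem_cons.1 hv).resolve_left h
      obtain ⟨L', h1, h2, h3, h4⟩ := ih hvL (List.nodup_cons.1 hnd).2
      cases L with
      | nil => simp at hvL
      | cons b L =>
        refine ⟨L', h1, ?_, h3, ?_⟩
        · rw [h2, List.getLast?_cons_cons]
        · intro e he
          exact List.mem_cons_of_mem _ (h4 e he)

lemma path {V : Type} [DecidableEq V] (A : Finset (V × V)) (a b : V) (h : Rch A a b) :
    ∃ L : List V, L.head? = some a ∧ L.getLast? = some b ∧ L.Nodup ∧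
      ∀ e ∈ L.zip L.tail, e ∈ A := by
  unfold Rch at h
  induction h using Relation.ReflTransGen.head_induction_on with
  | refl => exact ⟨[b], rfl, rfl, by simp, by simp⟩
  | @head x y hxy _ ih =>
    obtain ⟨L, q1, q2, q3, q4⟩ := ih
    by_cases hm : x ∈ L
    · obtain ⟨Q, r1, r2, r3, r4⟩ := suffix x L hm q3
      exact ⟨Q, r1, r2.trans q2, r3, fun e he => q4 e (r4 e he)⟩
    · cases L with
      | nil => simp at q1
      | cons c L =>
        simp only [List.head?_cons, Option.some.injEq] at q1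
        subst q1
        refine ⟨x :: c :: L, rfl, by rw [List.getLast?_cons_cons]; exact q2,
          List.nodup_cons.2 ⟨hm, q3⟩, fun e he => ?_⟩
        rcases List.mem_cons.1 he with rfl | he
        · exact hxy
        · exact q4 e he

theorem fin : TAStmt → NetStmt → FinalStmt := by
  intro hTA hNet
  refine ⟨449000000 * 1024, by norm_num, ?_⟩
  intro k hk V _ _ G hdeg
  classical
  set D : Finset (V × V) := Finset.univ.filter (fun e => G.Adj e.1 e.2) with hD
  obtain ⟨l, hl1, hl2⟩ : ∃ l : ℕ, k ≤ 2 ^ l ∧ 2 ^ l ≤ 2 * k := by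
    refine ⟨Nat.clog 2 k, Nat.le_pow_clog (by norm_num) k, ?_⟩
    rcases Nat.lt_or_ge 1 k with h | h
    · have h1 := Nat.pow_pred_clog_lt_self (b := 2) (by norm_num) h
      have h2 := Nat.clog_pos (b := 2) (by norm_num) h
      obtain ⟨m, hm⟩ := Nat.exists_eq_succ_of_ne_zero h2.ne'
      rw [hm] at h1 ⊢
      simp only [Nat.pred_succ] at h1
      rw [pow_succ]; omega
    · obtain rfl : k = 1 := by omega
      simp
  have hk0 : (0 : ℝ) < k := by exact_mod_cast hk
  have hlog : 0 ≤ Real.log k := Real.log_natCast_nonneg k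
  have hlam : ((l + 1 : ℕ) : ℝ) ≤ 2 * (1 + Real.log k) := by
    have h1 : ((2 : ℝ)) ^ l ≤ 2 * k := by exact_mod_cast hl2
    have h2 := Real.log_le_log (by positivity) h1
    rw [Real.log_pow, Real.log_mul (by norm_num) hk0.ne'] at h2
    have h3 := Real.log_two_gt_d9
    push_cast
    by_contra hc
    push Not at hc
    nlinarith
  have hpow : l + 1 ≤ 2 ^ l := Nat.lt_two_pow_self
  set x := 2 ^ l with hx
  set m := l + 1 with hm
  have hm1 : 1 ≤ m := by omega
  have hx1 : 1 ≤ x := by omega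
  have p4 : 1 ≤ m ^ 4 * x := Nat.mul_pos (Nat.pow_pos hm1) hx1
  have p49 : m ^ 4 * x ≤ m ^ 9 * x :=
    Nat.mul_le_mul_right _ (Nat.pow_le_pow_right hm1 (by norm_num))
  have p59 : m ^ 5 * x ≤ m ^ 9 * x :=
    Nat.mul_le_mul_right _ (Nat.pow_le_pow_right hm1 (by norm_num))
  have hM := hTA V D (100 * m ^ 4 * x) (2000 * m ^ 4 * x) (14 * m)
    (2000 * m ^ 4 * (224000 * m ^ 5) * x) (by rw [mul_assoc]; omega) ?_ ?_
  · obtain ⟨f, hf, P, hP1, hP2⟩ := hNet V D l (224000 * m ^ 5) _ _ _ _ hM le_rfl le_rfl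
      (by
        have : m ^ 2 ≤ m ^ 5 := Nat.pow_le_pow_right hm1 (by norm_num)
        rw [← hm]; omega)
      (le_of_eq (by rw [← hx]; ring)) le_rfl
    have hc : ∀ i j : Fin k, ∃ L : List V, i < j →
        L.head? = some (f (Fin.castLE hl1 i)) ∧ L.getLast? = some (f (Fin.castLE hl1 j)) ∧
        L.Nodup ∧ ∀ e ∈ L.zip L.tail, e ∈ P (Fin.castLE hl1 i) (Fin.castLE hl1 j) := by
      intro i j
      by_cases hij : i < j
      · obtain ⟨L, hL⟩ := path _ _ _ (hP1 (Fin.castLE hl1 i) (Fin.castLE hl1 j) hij).2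
        exact ⟨L, fun _ => hL⟩
      · exact ⟨[], fun h => absurd h hij⟩
    choose Q hQ using hc
    refine ⟨fun i => f (Fin.castLE hl1 i), hf.comp (Fin.castLE_injective hl1), Q, ?_, ?_⟩
    · intro i j hij
      obtain ⟨q1, q2, q3, q4⟩ := hQ i j hij
      refine ⟨q1, q2, q3, fun a b hab => ?_⟩
      have := (hP1 (Fin.castLE hl1 i) (Fin.castLE hl1 j) hij).1 (q4 _ hab)
      simpa [hD] using this
    · intro i j i' j' hij hij' hne a b hab hab'
      refine Finset.disjoint_left.1 (hP2 (Fin.castLE hl1 i) (Fin.castLE hl1 j) (Fin.castLE hl1 i')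
        (Fin.castLE hl1 j') hij hij' ?_) ((hQ i j hij).2.2.2 _ hab) ((hQ i' j' hij').2.2.2 _ hab')
      intro h
      apply hne
      obtain ⟨h1, h2⟩ := Prod.ext_iff.1 h
      exact Prod.ext (Fin.castLE_injective hl1 h1) (Fin.castLE_injective hl1 h2)
  · have h1 : m ^ 4 * x ≤ x ^ 4 * x := Nat.mul_le_mul_right _ (Nat.pow_le_pow_left hpow 4)
    have h2 : 2 ^ (14 * m) = 2 ^ 14 * (x ^ 4 * x) * x ^ 9 := by
      rw [hx, hm]; ring
    have h3 : 1 ≤ x ^ 9 := Nat.pow_pos hx1
    have h4 : 2 ^ 14 * (x ^ 4 * x) ≤ 2 ^ 14 * (x ^ 4 * x) * x ^ 9 := Nat.le_mul_of_pos_right _ h3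
    rw [h2, mul_assoc 100]
    omega
  · intro v
    have h1 : ({w | G.Adj v w} : Set V).ncard ≤ (D.filter (fun e => e.1 = v)).card := by
      rw [← Set.ncard_coe_finset]
      apply Set.ncard_le_ncard_of_injOn (fun w => (v, w))
      · intro w hw
        simpa [hD] using hw
      · intro a _ b _ h
        exact (Prod.ext_iff.1 h).2
    refine le_trans ?_ h1
    have h2 : 449000000 * (m ^ 9 * x) ≤ ({w | G.Adj v w} : Set V).ncard := by
      have h3 : ((449000000 * (m ^ 9 * x) : ℕ) : ℝ) ≤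
          449000000 * 1024 * (k : ℝ) * (1 + Real.log k) ^ 9 := by
        have a1 : (x : ℝ) ≤ 2 * k := by exact_mod_cast hl2
        have a2 : (m : ℝ) ^ 9 ≤ (2 * (1 + Real.log k)) ^ 9 :=
          pow_le_pow_left₀ (Nat.cast_nonneg _) hlam 9
        have a3 := mul_le_mul a2 a1 (Nat.cast_nonneg _) (by positivity)
        push_cast
        calc (449000000 : ℝ) * ((m : ℝ) ^ 9 * x)
            ≤ 449000000 * ((2 * (1 + Real.log k)) ^ 9 * (2 * k)) := by linarith
          _ = _ := by ring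
      exact_mod_cast h3.trans (hdeg v)
    have e1 : 2000 * m ^ 4 * (224000 * m ^ 5) * x = 448000000 * (m ^ 9 * x) := by ring
    have e2 : 8 * (2000 * m ^ 4 * x) * (14 * m) = 224000 * (m ^ 5 * x) := by ring
    rw [e1, e2, mul_assoc 100]
    omega

end Pool.Agent.MP_b9875a_co.H3
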